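import Pool.Agent.X128.SK.Irr

/-!
# Finitely square-skeletal normal functors are skeletal
-/

set_option autoImplicit false

namespace Pool.Agent.Results.MP_7a056a_gt.SquareSkeletal

open CategoryTheory Pool.Agent.X128.SK

/-- **MP_7a056a_gt, Q1.** Let `F` be a functor on compacta which is monomorphic, epimorphic,
continuous and preserves preimages (for instance any normal functor). If `F` is finitely
square-skeletal, then `F` is skeletal: `F f` is skeletal for every open surjection `f` between
compacta. -/
theorem result (F : CompHaus.{0} ⥤ CompHaus.{0}) (hF : Good F) (hs : FinSqSkel F)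
    {X Y : CompHaus.{0}} (f : X ⟶ Y) (hfo : IsOpenMap f) (hfs : Function.Surjective f) :
    Skel (F.map f) :=
  main hF hs f hfo hfs

end Pool.Agent.Results.MP_7a056a_gt.SquareSkeletal
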